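import Pool.Agent.D0H78.CG.Defs
import Pool.Agent.D0H78.QT.Final
import Pool.Agent.D0H78.SS.Sym
import Pool.Agent.Y121.AHS.Conv

/-!
# Comparison of the definitions
-/

open CategoryTheory AlgebraicGeometry TensorProduct

universe u

namespace Pool.Agent.D0H78.CG

open Module
open Pool.Agent.H914 Pool.Agent.H914.VarClass Pool.Agent.H914.VarClass.Obj
  Pool.Agent.H914.WeilCohomology Pool.Agent.Y121.AHS
open Pool.Agent.Y133.Half (pw ClassPred)

variable {k : Type u} [Field k] {𝒱 : VarClass k} {ops : CycleOps 𝒱}
  {W : WeilCohomology.{u, 0} ops} {X : 𝒱.Obj}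

lemma isProj_iff {n : ℕ} {p : pw X n ⟶ X} : MT.IsProj X n p ↔ IsProj X n p := by
  constructor
  · intro h
    induction h with
    | one => exact IsProj.one
    | last n => exact IsProj.last n
    | step n p _ ih => exact IsProj.step n p ih
  · intro h
    induction h with
    | one => exact MT.IsProj.one
    | last n => exact MT.IsProj.last n
    | step n p _ ih => exact MT.IsProj.step n p ih

section Sym

variable {L : Type} [Field L] [Algebra W.K L] {P : Prp W X} {c : L} {f : Maps W L X}

/-- The homomorphisms given by a symmetry. -/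
noncomputable def symHom (h : IsSym P c f) (n : ℕ) :
    (baseW W L).H (pw X n) →ₐ[(baseW W L).K] (baseW W L).H (pw X n) where
  toFun x := f n x
  map_one' := (h.hom n).2.2.1
  map_mul' := (h.hom n).2.2.2
  map_zero' := by
    have h1 := (h.hom n).2.1 0 (emL W L 1)
    have e1 : ∀ x : HL W L (pw X n), (0 : L) • x = 0 := fun x => zero_smul L x
    rw [e1, e1] at h1
    exact h1
  map_add' := (h.hom n).1
  commutes' r := by
    have h1 := (h.hom n).2.1 r (emL W L 1)
    rw [(h.hom n).2.2.1] at h1
    rw [Algebra.algebraMap_eq_smul_one]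
    exact h1

lemma symHom_apply (h : IsSym P c f) (n : ℕ) (x : (baseW W L).H (pw X n)) :
    symHom h n x = (show (baseW W L).H (pw X n) from f n x) := rfl

lemma sym_proj (h : IsSym P c f) {n : ℕ} {p : pw X n ⟶ X} (hp : MT.IsProj X n p)
    (x : (baseW W L).H X) : symHom h n ((baseW W L).map p x) =
      (baseW W L).map p (symHom h 0 x) := by
  have h1 := h.proj n p (isProj_iff.1 hp) x
  have h2 := map_eq W L p x
  have h3 := map_eq W L p (f 0 x)
  calc _ = (show (baseW W L).H (pw X n) from f n (mapL p x)) :=
        congrArg (fun y => (show (baseW W L).H (pw X n) from f n y)) h2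
    _ = (show (baseW W L).H (pw X n) from mapL p (f 0 x)) := h1
    _ = _ := h3.symm

lemma sym_inj (h : IsSym P c f) (hc : c ≠ 0) (n : ℕ) : Function.Injective (symHom h n) := by
  rw [injective_iff_map_eq_zero]
  intro x hx
  apply (baseW W L).tr_ext
  intro y
  have h1 : (baseW W L).tr (pw X n) (symHom h n (x * y)) =
      (show (baseW W L).K from c ^ (pw X n).dim) * (baseW W L).tr (pw X n) (x * y) :=
    h.tr n (x * y)
  rw [map_mul, hx, zero_mul, map_zero] at h1
  rw [zero_mul, map_zero]
  rcases mul_eq_zero.1 h1.symm with h2 | h2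
  · exact absurd h2 (pow_ne_zero _ hc)
  · exact h2

/-- The family of homomorphisms given by a symmetry. -/
noncomputable def famOf (h : IsSym P c f) : SS.Fam (baseW W L) X where
  f := symHom h
  proj _ _ hp x := sym_proj h hp x

end Sym

variable {P : Prp W X} {Q : ClassPred W}

/-- From the simplified to the full structure. -/
noncomputable def toQ (hQ : ∀ n j c, Q.P (pw X n) j c → P n j c) (G : GaloisAction W X P) :
    QT.GaloisAction Q X where
  L := G.L
  field := G.field
  alg := G.alg
  emb := G.emb
  Γ := G.Γ
  group := G.group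
  χ := (MonoidHom.toHomUnits { toFun := G.χ, map_one' := G.map_one, map_mul' := G.map_mul } :
    G.Γ →* G.Lˣ)
  ρ n :=
    { toFun := fun g => AlgEquiv.ofAlgHom (symHom (G.sym g) n) (symHom (G.sym g⁻¹) n)
        (by
          apply AlgHom.ext
          intro x
          have h := (G.mul g g⁻¹ n x).symm
          rw [mul_inv_cancel, G.one] at h
          exact h)
        (by
          apply AlgHom.ext
          intro x
          have h := (G.mul g⁻¹ g n x).symm
          rw [inv_mul_cancel, G.one] at h
          exact h)
      map_one' := by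
        apply AlgEquiv.ext
        intro x
        exact G.one n x
      map_mul' := fun g h => by
        apply AlgEquiv.ext
        intro x
        exact G.mul g h n x }
  degree g n i x hx := (G.sym g).deg n i x hx
  trace g n x := (G.sym g).tr n x
  proj g n p hp x := sym_proj (G.sym g) hp x
  classes g n j c hc := (G.sym g).cls n j c (hQ n j c hc)

variable {hQ : ∀ n j c, Q.P (pw X n) j c → P n j c} {G : GaloisAction W X P}

lemma toQ_isTate {n j : ℕ} {x : HX G n} :
    (toQ hQ G).IsTate n j x ↔ IsTate G n j x := Iff.rfl

lemma toQ_tateDim (n : ℕ) : (toQ hQ G).tateDim n = tateDim G n := rfl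

lemma toQ_tateAre {R : Prp W X} : (toQ hQ G).TateAre R ↔ TateAre G R := Iff.rfl

end Pool.Agent.D0H78.CG
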