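import Pool.Agent.Y121.AHS.Defs
import Pool.Agent.Y133.Half.PwDefs

/-!
# Actions of Galois groups on the cohomology of the powers of a variety: definitions
-/

open CategoryTheory AlgebraicGeometry

universe u

namespace Pool.Agent.D0H78.CG

open Module Pool.Agent.Y121.AHS

section Lin

variable {L E Γ : Type} [Field L] [AddCommGroup E] [Module L E] [Group Γ]

/-- The condition holds for all elements of a subgroup of finite index. -/
def Potentially (p : Γ → Prop) : Prop := ∃ Δ : Subgroup Γ, Δ.FiniteIndex ∧ ∀ g ∈ Δ, p g

/-- The map `f` multiplies `x` by `c ^ j`. -/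
def Scales (f : E → E) (c : L) (j : ℕ) (x : E) : Prop := f x = c ^ j • x

/-- The element `x` of `D` is multiplied by `(χ g) ^ j` by `ρ g` for all elements `g` of a subgroup of
finite index. -/
def TateIn (D : Submodule L E) (ρ : Γ → E → E) (χ : Γ → L) (j : ℕ) (x : E) : Prop :=
  x ∈ D ∧ Potentially fun g => Scales (ρ g) (χ g) j x

/-- The map preserves the subspace. -/
def Preserves (U : Submodule L E) (f : E → E) : Prop := ∀ x ∈ U, f x ∈ U

/-- `U` is a subspace of `D` which is stable under the operators `ρ g` for all elements `g` of a
subgroup of finite index. -/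
def StableIn (D : Submodule L E) (ρ : Γ → E → E) (U : Submodule L E) : Prop :=
  U ≤ D ∧ Potentially fun g => Preserves U (ρ g)

/-- The subspace `U` of `D` has such a complement. -/
def ComplIn (D : Submodule L E) (ρ : Γ → E → E) (U : Submodule L E) : Prop :=
  ∃ U', StableIn D ρ U' ∧ U ⊓ U' = ⊥ ∧ U ⊔ U' = D

/-- The map `f` preserves the subspace `U` and acts on it linearly, with determinant `d`. -/
def HasDet (U : Submodule L E) (f : E → E) (d : L) : Prop :=
  ∃ F : U →ₗ[L] U, (∀ x, (F x : E) = f x) ∧ LinearMap.det F = d

/-- The number `i dim U + d` is `2 j`. -/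
def DegEq (i : ℕ) (U : Submodule L E) (d j : ℕ) : Prop := i * finrank L U + d = 2 * j

/-- For the operators `ρ g` on `U` and `ρ' g`: the vector `x` is a nonzero element of `D`, and
`det(ρ g | U) (ρ' g x) = (χ g)^j x` for all `g` in a subgroup of finite index. -/
def DualVector {E' : Type} [AddCommGroup E'] [Module L E'] (ρ : Γ → E → E) (U : Submodule L E)
    (ρ' : Γ → E' → E') (χ : Γ → L) (D : Submodule L E') (j : ℕ) (x : E') : Prop :=
  x ≠ 0 ∧ x ∈ D ∧ Potentially fun g => ∃ d, HasDet U (ρ g) d ∧ d • ρ' g x = χ g ^ j • x

/-- The element is a linear combination of elements with the property `P`. -/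
def IsCombo (L : Type) {E : Type} [Field L] [AddCommGroup E] [Module L E] (P : E → Prop) (x : E) :
    Prop :=
  x ∈ Submodule.span L {y | P y}

/-- The dimension of the subspace spanned by the elements with one of the properties `P j`. -/
noncomputable def spanDim (L : Type) {E : Type} [Field L] [AddCommGroup E] [Module L E]
    (P : ℕ → E → Prop) : ℕ :=
  Set.finrank L {x | ∃ j, P j x}

/-- The map `f` is linear and respects the unit `e` and the multiplication `μ`. -/
def IsHom (L : Type) {E : Type} [Field L] [AddCommGroup E] [Module L E] (e : E) (μ : E → E → E)
    (f : E → E) : Prop :=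
  (∀ x y, f (x + y) = f x + f y) ∧ (∀ (l : L) x, f (l • x) = l • f x) ∧
    f e = e ∧ ∀ x y, f (μ x y) = μ (f x) (f y)

end Lin

open Pool.Agent.H914 Pool.Agent.H914.VarClass Pool.Agent.H914.VarClass.Obj
  Pool.Agent.H914.WeilCohomology
open Pool.Agent.Y133.Half (pw)

variable {k : Type u} [Field k] {𝒱 : VarClass k} {ops : CycleOps 𝒱}

/-- The morphism is one of the projections of the product `pw X n` of `n + 1` copies of `X` to its
factors. -/
inductive IsProj (X : 𝒱.Obj) : (n : ℕ) → (pw X n ⟶ X) → Prop
  | one : IsProj X 0 (𝟙 X)
  | last (n : ℕ) : IsProj X (n + 1) (snd (pw X n) X)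
  | step (n : ℕ) (p : pw X n ⟶ X) : IsProj X n p → IsProj X (n + 1) (fst (pw X n) X ≫ p)

/-- Properties `P n j c` of the classes `c` of codimension `j` on the products of `n + 1` copies
of `X`. -/
abbrev Prp (W : WeilCohomology.{u, 0} ops) (X : 𝒱.Obj) := ∀ n, ℕ → W.H (pw X n) → Prop

/-- Families of maps `f n` of the cohomology with coefficients in `L` of the products of `n + 1`
copies of `X`. -/
abbrev Maps (W : WeilCohomology.{u, 0} ops) (L : Type) [Field L] [Algebra W.K L] (X : 𝒱.Obj) :=
  ∀ n, HL W L (pw X n) → HL W L (pw X n)

variable {W : WeilCohomology.{u, 0} ops} {X : 𝒱.Obj}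

/-- The maps `f n` are a symmetry for the property `P`: they are homomorphisms of `L`-algebras, respect
the degrees and the pull-backs for the projections to `X`, and multiply the orientations by
`c ^ dim` and the classes of codimension `j` with the property `P` by `c ^ j`. -/
structure IsSym {L : Type} [Field L] [Algebra W.K L] (P : Prp W X) (c : L) (f : Maps W L X) :
    Prop where
  hom : ∀ n, IsHom L (emL W L 1) mulL (f n)
  deg : ∀ n i, Preserves (grL W L (pw X n) i) (f n)
  tr : ∀ n x, trL (f n x) = c ^ (pw X n).dim * trL x
  proj : ∀ n p, IsProj X n p → ∀ x, f n (mapL p x) = mapL p (f 0 x)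
  cls : ∀ n j a, P n j a → Scales (f n) c j (emL W L a)

/-- An action of a group `Γ` (the Galois group of a finitely generated field of definition of `X`) on
the cohomology, with coefficients extended to a field `L` which can be embedded into the complex
numbers (`L = ℚ_ℓ`, by the comparison isomorphism with `ℓ`-adic cohomology), of all powers of `X`,
by symmetries for the property `P`: the group acts by automorphisms of the graded algebras,
compatibly with the projections to the factors, and multiplies the orientations and the classes
with the property `P` by powers of a character `χ` (the inverse of the cyclotomic character: the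
Tate twists are suppressed). -/
structure GaloisAction (W : WeilCohomology.{u, 0} ops) (X : 𝒱.Obj) (P : Prp W X) where
  /-- the field of coefficients -/
  L : Type
  [field : Field L]
  [alg : Algebra W.K L]
  emb : Nonempty (L →+* ℂ)
  /-- the group -/
  Γ : Type
  [group : Group Γ]
  /-- the character -/
  χ : Γ → L
  /-- the action on the cohomology of the product of `n + 1` copies of `X` -/
  ρ : Γ → Maps W L X
  map_one : χ 1 = 1
  map_mul : ∀ g h, χ (g * h) = χ g * χ h
  one : ∀ n x, ρ 1 n x = x
  mul : ∀ g h n x, ρ (g * h) n x = ρ g n (ρ h n x)
  sym : ∀ g, IsSym P (χ g) (ρ g)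

attribute [instance] GaloisAction.field GaloisAction.alg GaloisAction.group

section

variable {P : Prp W X} (G : GaloisAction W X P) (m : ℕ)

/-- The cohomology, with coefficients in `L`, of the product of `m + 1` copies of `X`. -/
def HX : Type := HL W G.L (pw X m)

noncomputable instance instAddHX : AddCommGroup (HX G m) := instAddHL _ _ _

noncomputable instance instModHX : Module G.L (HX G m) := instModHL _ _ _

/-- Its subspaces. -/
abbrev Sub : Type := Submodule G.L (HX G m)

/-- The part of degree `i`. -/
noncomputable def degX (i : ℕ) : Sub G m := grL W G.L (pw X m) i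

/-- The operators given by the elements of the group. -/
def opX : G.Γ → HX G m → HX G m := fun g => G.ρ g m

/-- The class `x` of codimension `j` is a Tate class: it is of degree `2 j` and multiplied by `χ g ^ j`
by all elements `g` of a subgroup of finite index. -/
def IsTate (j : ℕ) (x : HX G m) : Prop := TateIn (degX G m (2 * j)) (opX G m) G.χ j x

/-- The number of linearly independent Tate classes (of all codimensions). -/
noncomputable def tateDim : ℕ := spanDim G.L (IsTate G m)

variable {m}

/-- `U` is a subspace of the part of degree `i` which is stable under a subgroup of finite index. -/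
def IsStable (i : ℕ) (U : Sub G m) : Prop := StableIn (degX G m i) (opX G m) U

/-- The subspace `U` of the part of degree `i` has a complement which is stable under a subgroup of
finite index. -/
def HasComplement (i : ℕ) (U : Sub G m) : Prop := ComplIn (degX G m i) (opX G m) U

/-- The dual of the one-dimensional representation `det U`, where `U` is a subspace of dimension `r` of
the part of degree `i` which is stable under a subgroup of finite index, is up to a Tate twist a
subrepresentation of the cohomology of a power of `X`, at least for a subgroup of finite index: there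
is a nonzero class `x` of some degree `d` on some power such that `i r + d = 2 j` and
`det(g | U) g x = χ(g)^j x`. (For `d = 0`, `x = 1` this says that `det(g | U) = χ(g)^j`.) -/
def HasDualLine (i : ℕ) (U : Sub G m) : Prop :=
  ∃ n d j x, DegEq i U d j ∧ DualVector (opX G m) U (opX G n) G.χ (degX G n d) j x

/-- The subspace `U` is stable under all symmetries for the property `Q`. -/
def StableUnder (Q : Prp W X) (U : Sub G m) : Prop :=
  ∀ (c : G.L) f, c ≠ 0 → IsSym Q c f → Preserves U (f m)

variable (m)

/-- Every subspace of the cohomology, in one degree, of the product of `m + 1` copies of `X`, which is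
stable under a subgroup of finite index, has a dual line. -/
def HasDualLines : Prop := ∀ i (U : Sub G m), IsStable G i U → HasDualLine G i U

/-- The Tate classes are exactly the linear combinations, with coefficients in `L`, of the classes
`1 ⊗ c` where `c` has the property `Q` (`Q n j c` for classes of codimension `j` on the product of
`n + 1` copies of `X`). -/
def TateAre (Q : Prp W X) : Prop := ∀ n j (x : HX G n),
  IsTate G n j x ↔ IsCombo G.L (fun y => ∃ c, Q n j c ∧ emL W G.L c = y) x

end

end Pool.Agent.D0H78.CG
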