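import Pool.Agent.D0H78.CG.Mot
import Pool.Agent.R920.MT.Defs

/-!
# Comparison of the definitions of the motivated classes
-/

open CategoryTheory AlgebraicGeometry

universe u

namespace Pool.Agent.D0H78.CG

open Pool.Agent.H914 Pool.Agent.H914.VarClass Pool.Agent.H914.VarClass.Obj
  Pool.Agent.H914.WeilCohomology

variable {k : Type u} [Field k] {𝒱 : VarClass k} {ops : CycleOps 𝒱}
  {W : WeilCohomology.{u, 0} ops}

lemma isMotivated_iff {X : 𝒱.Obj} {j : ℕ} {c : W.H X} :
    IsMotivated W X j c ↔ R920.MT.IsMotivated W X j c := by
  constructor
  · intro h P hP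
    exact h P
      { lin := fun X j => hP.lin X j
        cl := fun X j z hz => hP.cl X j z hz
        mul := fun X i j a b ha hb => hP.mul X i j a b ha hb
        map := fun X Y f j a ha => hP.map X Y f j a ha
        push := fun X Y f j l a hl ha => hP.push X Y f j l a hl ha
        lift := fun X D j x hD hL hj hx h => hP.lift X D j hD hL hj x hx h }
  · intro h P hP
    exact h P
      { lin := fun X j => hP.lin X j
        cl := fun X j z hz => hP.cl X j z hz
        mul := fun X i j a b ha hb => hP.mul X i j a b ha hb
        map := fun X Y f j a ha => hP.map X Y f j a ha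
        push := fun X Y f j l a hl ha => hP.push X Y f j l a hl ha
        lift := fun X D j hD hL hj x hx h => hP.lift X D j x hD hL hj hx h }

end Pool.Agent.D0H78.CG
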