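import Pool.Agent.D0H78.CG.Conv
import Pool.Agent.D0H78.CG.MotConv
import Pool.Agent.D0H78.SS.Grp
import Pool.Agent.D0H78.MT.Final

/-!
# The Mumford-Tate conjecture from bounded indices
-/

open CategoryTheory AlgebraicGeometry TensorProduct Filter

universe u

namespace Pool.Agent.D0H78.CG

open Module
open Pool.Agent.H914 Pool.Agent.H914.VarClass Pool.Agent.H914.VarClass.Obj
  Pool.Agent.H914.WeilCohomology Pool.Agent.Y121.AHS
open Pool.Agent.Y133.Half (pw ClassPred dimBy)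
open Pool.Agent.R920.MT (motPred mot_nondeg)

variable {k : Type u} [Field k] {𝒱 : VarClass k} {ops : CycleOps 𝒱}
  {W : WeilCohomology.{u, 0} ops} {X : 𝒱.Obj} {P : Prp W X} {Q : ClassPred W}
  {hQ : ∀ n j c, Q.P (pw X n) j c → P n j c} {G : GaloisAction W X P} {m : ℕ}

/-- The data given by a dual line. -/
lemma data_of (hQ : ∀ n j c, Q.P (pw X n) j c → P n j c) {i : ℕ} {U : Sub G m}
    (hU : IsStable G i U) (hD : HasDualLine G i U) :
    ∃ (Δ₁ : Subgroup G.Γ) (_ : Δ₁.FiniteIndex)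
      (hU' : SS.IsSub (SS.resG (toQ hQ G) Δ₁) m i U) (n d j : ℕ)
      (x : (SS.resG (toQ hQ G) Δ₁).V.H (pw X n)),
      x ≠ 0 ∧ x ∈ (SS.resG (toQ hQ G) Δ₁).V.gr (pw X n) d ∧
      i * finrank (SS.resG (toQ hQ G) Δ₁).V.K (show Submodule (SS.resG (toQ hQ G) Δ₁).V.K
        ((SS.resG (toQ hQ G) Δ₁).V.H (pw X m)) from U) + d = 2 * j ∧
      ∃ Δ : Subgroup (SS.resG (toQ hQ G) Δ₁).Γ, Δ.FiniteIndex ∧ ∀ g ∈ Δ,
        LinearMap.det (SS.res hU' g) • (SS.resG (toQ hQ G) Δ₁).ρ n g x =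
          ((SS.resG (toQ hQ G) Δ₁).χ g : (SS.resG (toQ hQ G) Δ₁).V.K) ^ j • x := by
  obtain ⟨hle, Δ₁, hΔ₁, h1⟩ := hU
  obtain ⟨n, d, j, x, hd, hx0, hx, Δ₂, hΔ₂, h2⟩ := hD
  have hU' : SS.IsSub (SS.resG (toQ hQ G) Δ₁) m i U := ⟨hle, fun g x hx =>
    h1 (Δ₁.subtype g) g.2 x hx⟩
  have hfi : (Δ₂.subgroupOf Δ₁).FiniteIndex := by
    have := hΔ₂
    infer_instance
  refine ⟨Δ₁, hΔ₁, hU', n, d, j, x, hx0, hx, hd, (Δ₂.subgroupOf Δ₁ : Subgroup Δ₁), hfi,
    fun g hg => ?_⟩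
  obtain ⟨c, ⟨F, hF, hdet⟩, h3⟩ := h2 (Δ₁.subtype g) hg
  have h4 : LinearMap.det (SS.res hU' g) = c := by
    rw [← hdet]
    congr 1
    apply LinearMap.ext
    intro y
    apply Subtype.ext
    exact (hF y).symm
  rw [h4]
  exact h3

/-- The stable complement. -/
theorem compl_of (hQ : ∀ n j c, Q.P (pw X n) j c → P n j c) {i : ℕ} {U : Sub G m}
    (hU : IsStable G i U) (hD : HasDualLine G i U) (hN : ∀ n, SS.NondegOn (toQ hQ G) n) :
    HasComplement G i U := by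
  obtain ⟨Δ₁, hΔ₁, hU', n, d, j, x, hx0, hx, hd, Δ, hΔ, h⟩ := data_of hQ hU hD
  obtain ⟨U', h1, h2, h3⟩ := SS.exists_sub (G := SS.resG (toQ hQ G) Δ₁) hU' (x := x) hx0 hx hd hΔ
    h (SS.nondegOn_resG hΔ₁ (hN _))
  exact ⟨U', ⟨h1.1, Δ₁, hΔ₁, fun g hg x hx => h1.2 ⟨g, hg⟩ x hx⟩, h2, h3⟩

/-- Stable subspaces are stable under the symmetries. -/
theorem under_of (hQ : ∀ n j c, Q.P (pw X n) j c → P n j c) {R : Prp W X} (hT : TateAre G R)
    {i : ℕ} {U : Sub G m} (hU : IsStable G i U) (hD : HasDualLine G i U) :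
    StableUnder G R U := by
  intro c f hc hf y hy
  obtain ⟨Δ₁, hΔ₁, hU', n, d, j, x, hx0, hx, hd, Δ, hΔ, h⟩ := data_of hQ hU hD
  refine SS.sym_stable (G := SS.resG (toQ hQ G) Δ₁) (famOf hf) (sym_inj hf hc) (c := c) ?_ hU'
    (x := x) hx0 hx hd hΔ h hy
  intro n j x hx
  have hx' : IsTate G n j x := (SS.isTate_resG (G := toQ hQ G) hΔ₁).1 hx
  have h1 := (hT n j x).1 hx'
  have hsm : ∀ (l : G.L) (x : HL W G.L (pw X n)), f n (l • x) = l • f n x := (hf.hom n).2.1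
  have key : ∀ x ∈ Submodule.span G.L {y : HL W G.L (pw X n) | ∃ c, R n j c ∧ emL W G.L c = y},
      f n x = c ^ j • x := by
    intro x hx
    induction hx using Submodule.span_induction with
    | mem x hx =>
      obtain ⟨a, ha, rfl⟩ := hx
      exact hf.cls n j a ha
    | zero =>
      have h3 := hsm 0 0
      rw [zero_smul, zero_smul] at h3
      rw [h3, smul_zero]
    | add x y _ _ hx hy => rw [(hf.hom n).1, hx, hy, smul_add]
    | smul a x _ hx => rw [hsm, hx, smul_comm]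
  exact key x h1

/-- Elements which respect all Tate classes are symmetries. -/
lemma sym_of {R : Prp W X} (hT : TateAre G R) {g : G.Γ}
    (h : ∀ n j x, IsTate G n j x → Scales (opX G n g) (G.χ g) j x) : IsSym R (G.χ g) (G.ρ g) where
  hom := (G.sym g).hom
  deg := (G.sym g).deg
  tr := (G.sym g).tr
  proj := (G.sym g).proj
  cls n j a ha := h n j _ ((hT n j _).2 (Submodule.subset_span ⟨a, ha, rfl⟩))

lemma chi_ne (G : GaloisAction W X P) (g : G.Γ) : G.χ g ≠ 0 := by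
  intro h
  have h1 := G.map_mul g g⁻¹
  rw [mul_inv_cancel, G.map_one, h, zero_mul] at h1
  exact one_ne_zero h1

/-- The main theorem. -/
theorem main (T : HodgeTheory ops) (X : 𝒱.Obj) [Nontrivial (T.W.H X)]
    (G : GaloisAction T.W X (Motivated T X)) (C : ℕ)
    (hh : ∃ᶠ n in atTop, hodgeDim T X n ≤ C * motDim T X n)
    (ht : ∃ᶠ n in atTop, tateDim G n ≤ C * motDim T X n) :
    TateAre G (Hodge T X) ∧ (Potentially fun g => IsSym (Hodge T X) (G.χ g) (G.ρ g)) ∧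
      ∀ m, HasDualLines G m → ∀ i (U : Sub G m), U ≤ degX G m i →
        (IsStable G i U ↔ StableUnder G (Hodge T X) U) ∧
        (IsStable G i U → HasComplement G i U) := by
  have : Nontrivial ((toH T).W.H X) := ‹Nontrivial (T.W.H X)›
  have hQ : ∀ n j c, (motPred T.W).P (pw X n) j c → Motivated T X n j c :=
    fun _ _ _ h => isMotivated_iff.2 h
  have hm : ∀ n, motDim T X n = dimBy T.W (motPred T.W).P (pw X n) := by
    intro n
    have h1 : Motivated T X n = (motPred T.W).P (pw X n) := by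
      funext j c
      exact propext isMotivated_iff
    rw [motDim, h1]
    rfl
  simp only [hm] at hh ht
  obtain ⟨h1, h2, Δ, hΔ, h3⟩ := SS.full (T := toH T) (Q := motPred T.W)
    (fun h => R920.MT.IsMotivated.hodge (T := toH T) h) (fun n => mot_nondeg (toH T) (pw X n))
    (toQ hQ G) (C := C) ht
  have hT : TateAre G (Hodge T X) := h2 hh
  have hP : Potentially fun g => IsSym (Hodge T X) (G.χ g) (G.ρ g) :=
    ⟨Δ, hΔ, fun g hg => sym_of hT fun n j x hx => h3 g hg n j x hx⟩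
  refine ⟨hT, hP, fun m hD i U hU => ⟨⟨fun h => under_of hQ hT h (hD i U h), fun h => ?_⟩,
    fun h => compl_of hQ h (hD i U h) fun n => SS.tateNondeg_of (T := toH T)
      (fun h => R920.MT.IsMotivated.hodge (T := toH T) h) _ h1 n⟩⟩
  obtain ⟨Δ', hΔ', h4⟩ := hP
  exact ⟨hU, Δ', hΔ', fun g hg => h _ _ (chi_ne G g) (h4 g hg)⟩

end Pool.Agent.D0H78.CG
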