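import Pool.Agent.D0H78.CG.Defs

/-!
# Motivated classes and Hodge classes
-/

open CategoryTheory AlgebraicGeometry

universe u

namespace Pool.Agent.D0H78.CG

section Gen

variable {K A B : Type} {C : Type u} [Field K] [Ring A] [Algebra K A] [Ring B] [Algebra K B]
  [AddCommGroup C]

/-- The value of a linear map. -/
def app (f : A →ₗ[K] B) (a : A) : B := f a

/-- The value of a homomorphism of algebras. -/
def appA (f : A →ₐ[K] B) (a : A) : B := f a

/-- The value of an additive map. -/
def appC (f : C →+ A) (c : C) : A := f c

/-- The element is in the subspace. -/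
def IsIn (V : Submodule K A) (a : A) : Prop := a ∈ V

/-- The set is a subspace. -/
def IsSubspace (K : Type) {A : Type} [Field K] [Ring A] [Algebra K A] (S : A → Prop) : Prop :=
  ∃ V : Submodule K A, ∀ c, c ∈ V ↔ S c

/-- The element `w ^ m * x`. -/
def powMul (w : A) (m : ℕ) (x : A) : A := w ^ m * x

end Gen

open Pool.Agent.H914 Pool.Agent.H914.VarClass Pool.Agent.H914.VarClass.Obj
  Pool.Agent.H914.WeilCohomology Pool.Agent.Y121.AHS
open Pool.Agent.Y133.Half (pw)

variable {k : Type u} [Field k] {𝒱 : VarClass k} {ops : CycleOps 𝒱}

/-- Conditions for properties `P` of cohomology classes of codimension `j`: the classes with the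
property form subspaces, the classes of algebraic cycles have the property, it is stable under
products, pull-backs and push-forwards, and a class `x` of degree `2 j` on `X` has the property if
`D ^ (dim X - 2 j) x` has it, where `D` is the class of a divisor which satisfies the hard Lefschetz
theorem. -/
structure IsSystem (W : WeilCohomology.{u, 0} ops) (P : ∀ X : 𝒱.Obj, ℕ → W.H X → Prop) : Prop where
  lin : ∀ X j, IsSubspace W.K (P X j)
  cl : ∀ X j z, X.IsCyc j z → P X j (appC (W.cl X) z)
  mul : ∀ X i j a b, P X i a → P X j b → P X (i + j) (a * b)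
  map : ∀ (X Y : 𝒱.Obj) (f : X ⟶ Y) j a, P Y j a → P X j (appA (W.map f) a)
  push : ∀ (X Y : 𝒱.Obj) (f : X ⟶ Y) j l a, l + X.dim = j + Y.dim → P X j a →
    P Y l (app (W.push f) a)
  lift : ∀ X D j x, X.IsCyc 1 D → HardLefschetz W X D → 2 * j ≤ X.dim → IsIn (W.gr X (2 * j)) x →
    P X (X.dim - j) (powMul (appC (W.cl X) D) (X.dim - 2 * j) x) → P X j x

/-- The motivated classes of codimension `j` on `X` (André): the classes which have all properties
which satisfy these conditions. -/
def IsMotivated (W : WeilCohomology.{u, 0} ops) (X : 𝒱.Obj) (j : ℕ) (c : W.H X) : Prop :=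
  ∀ P, IsSystem W P → P X j c

variable (T : HodgeTheory ops) (X : 𝒱.Obj)

/-- The motivated classes on the powers of `X`. -/
def Motivated : Prp T.W X := fun n => IsMotivated T.W (pw X n)

/-- The Hodge classes on the powers of `X`. -/
def Hodge : Prp T.W X := fun n => IsHodge T (pw X n)

/-- The number of linearly independent motivated classes
on the product of `n + 1` copies of `X`. -/
noncomputable def motDim (n : ℕ) : ℕ := spanDim T.W.K (Motivated T X n)

/-- The number of linearly independent Hodge classes on the product of `n + 1` copies of `X`. -/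
noncomputable def hodgeDim (n : ℕ) : ℕ := spanDim T.W.K (Hodge T X n)

end Pool.Agent.D0H78.CG
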